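import Pool.Agent.Lib.FPT.REmb
import Pool.Agent.Lib.FPT.CIface
import Pool.Agent.Lib.FPT.InstPi

set_option autoImplicit false

/-!
# FinA: reduction of Q1 to finitely presented torsion-free groups

PROOF. `test_emb`: `rope` with `N = relSub j.2` (`re_benign`, `relSub_re`, `testGrp_torsionFree`).
`reduction`: by `wh_of_test` it suffices that `Wh (TestGrp j) = 0`; embed `TestGrp j` in `P` as in
`test_emb`; `Wh P = 0` and `WhInj` give `Wh (TestGrp j) = 0` (`wh_subsingleton_iff`).
`one_group`: if all finitely presented torsion-free groups have `Wh = 0` take `P = PUnit`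
(then all test groups have `Wh = 0`, and both sides are true: `lowK_of_wh` from the library);
otherwise take a finitely presented torsion-free `P` with `Wh P ≠ 0`: both sides are false
(for the left side: apply it to `ULift P`, see the proof of
`Pool/Agent/Results/MP_16fe43_al/TwoGeneratedTestGroup.lean`).
-/

namespace Pool.Agent.Lib.FPT

open Pool.Agent.Lib.BHS16 (WhInj Wh TorsionFree LowKVanishing TestIdx TestGrp)
open Pool.Agent.Lib.BHS16 (relSub testGrp_torsionFree lowK_of_wh wh_of_test wh_subsingleton_iff
  wh_retract TorsionFree.of_injective)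

theorem test_emb (j : TestIdx) : ∃ (P : Type) (_ : Group P) (e : TestGrp j →* P), Fpt P ∧
    Function.Injective e ∧ WhInj e :=
  let ⟨P, g, e, hP, hi, hs⟩ := rope (relSub j.2) (re_benign _ (relSub_re j.2))
    (testGrp_torsionFree j)
  ⟨P, g, e, hP, hi, hs.whInj⟩

universe u

theorem reduction (h : ∀ (P : Type) [Group P], Fpt P → Subsingleton (Wh P)) (G : Type u)
    [Group G] (hG : TorsionFree G) : LowKVanishing G := by
  refine lowK_of_wh (fun G' _ hG' => wh_of_test (fun j => ?_) G' hG') G hG
  obtain ⟨P, _, e, hP, _, hwh⟩ := test_emb j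
  rw [wh_subsingleton_iff]
  intro x
  exact hwh x ((wh_subsingleton_iff P).mp (h P hP) _)

theorem one_group : ∃ (P : Type) (_ : Group P), Fpt P ∧
    ((∀ (G : Type u) [Group G], TorsionFree G → LowKVanishing G) ↔ Subsingleton (Wh P)) := by
  by_cases h : ∀ (P : Type) [Group P], Fpt P → Subsingleton (Wh P)
  · exact ⟨PUnit, inferInstance, fpt_unit, fun _ => h PUnit fpt_unit,
      fun _ G _ hG => reduction h G hG⟩
  · simp only [not_forall] at h
    obtain ⟨P, inst, hP, hW⟩ := h
    refine ⟨P, inst, hP, fun hl => ?_, fun hr => absurd hr hW⟩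
    have h1 : Subsingleton (Wh (ULift.{u} P)) :=
      (hl (ULift.{u} P) (TorsionFree.of_injective (MulEquiv.ulift (α := P)).toMonoidHom
        (MulEquiv.ulift (α := P)).injective hP.tf)).1
    exact wh_retract (MulEquiv.ulift (α := P)).symm.toMonoidHom
      (MulEquiv.ulift (α := P)).toMonoidHom (by ext x; rfl) h1

end Pool.Agent.Lib.FPT
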